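import Pool.Agent.Helper28.NO.Goals

/-! # Packet R1 of MP_705522_gt: the real inequality near the critical direction -/

set_option autoImplicit false

namespace Pool.Agent.Helper77.NO

open Set
open Pool.Agent.Helper28.NO

theorem c_bounds {q : ℝ} (hq : 6 ≤ q) :
    1 < cc q ∧ cc q ≤ 1.12247 ∧ cc q - 1 ≤ 0.73482 * (1 / q) := by
  have hq0 : 0 < q := by linarith
  have hy6 : ((2 : ℝ) ^ (1 / 6 : ℝ)) ^ 6 = 2 := by
    rw [← Real.rpow_natCast, ← Real.rpow_mul (by norm_num)]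
    norm_num
  have hy0 : 0 < (2 : ℝ) ^ (1 / 6 : ℝ) := Real.rpow_pos_of_pos (by norm_num) _
  have hy : (2 : ℝ) ^ (1 / 6 : ℝ) ≤ 1.12247 := by
    by_contra h
    push Not at h
    have := pow_lt_pow_left₀ h (by norm_num) (n := 6) (by norm_num)
    rw [hy6] at this
    norm_num at this
  have hy1 : 1 < (2 : ℝ) ^ (1 / 6 : ℝ) := Real.one_lt_rpow (by norm_num) (by norm_num)
  have h1 : 1 < cc q := Real.one_lt_rpow (by norm_num) (by positivity)
  have h3 : cc q ≤ 1 + 6 / q * ((2 : ℝ) ^ (1 / 6 : ℝ) - 1) := by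
    have e : cc q = (1 + ((2 : ℝ) ^ (1 / 6 : ℝ) - 1)) ^ (6 / q) := by
      rw [add_sub_cancel, ← Real.rpow_mul (by norm_num)]
      unfold cc
      congr 1
      field_simp
    rw [e]
    apply rpow_one_add_le_one_add_mul_self (by linarith) (by positivity)
    rw [div_le_one hq0]; exact hq
  have h6q : 6 / q ≤ 1 := by rw [div_le_one hq0]; exact hq
  have h6q0 : 0 < 6 / q := by positivity
  refine ⟨h1, ?_, ?_⟩
  · nlinarith
  · have : 6 / q * ((2 : ℝ) ^ (1 / 6 : ℝ) - 1) ≤ 6 / q * 0.12247 := by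
      apply mul_le_mul_of_nonneg_left _ h6q0.le
      linarith
    have e : 6 / q * (0.12247 : ℝ) = 0.73482 * (1 / q) := by ring
    linarith

theorem odd_part {p : ℝ} (hp : 2 ≤ p) {τ : ℝ} (h0 : 0 ≤ τ) (h1 : τ < 1) :
    2 * p * τ ≤ (1 + τ) ^ p - (1 - τ) ^ p := by
  have hmono : MonotoneOn (fun τ : ℝ => (1 + τ) ^ p - (1 - τ) ^ p - 2 * p * τ) (Ico 0 1) := by
    have hd : ∀ x ∈ Ico (0 : ℝ) 1, HasDerivAt
        (fun τ : ℝ => (1 + τ) ^ p - (1 - τ) ^ p - 2 * p * τ)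
        (p * (1 + x) ^ (p - 1) + p * (1 - x) ^ (p - 1) - 2 * p) x := by
      intro x hx
      have e1 : HasDerivAt (fun τ : ℝ => (1 + τ) ^ p) (1 * p * (1 + x) ^ (p - 1)) x :=
        ((hasDerivAt_id x).const_add 1).rpow_const (Or.inl (by simp only [id]; linarith [hx.1]))
      have e2 : HasDerivAt (fun τ : ℝ => (1 - τ) ^ p) (-1 * p * (1 - x) ^ (p - 1)) x :=
        ((hasDerivAt_id x).const_sub 1).rpow_const (Or.inl (by simp only [id]; linarith [hx.2]))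
      have e3 : HasDerivAt (fun τ : ℝ => 2 * p * τ) (2 * p * 1) x :=
        (hasDerivAt_id x).const_mul (2 * p)
      exact ((e1.sub e2).sub e3).congr_deriv (by ring)
    apply monotoneOn_of_deriv_nonneg (convex_Ico 0 1)
    · intro x hx; exact (hd x hx).continuousAt.continuousWithinAt
    · intro x hx
      rw [interior_Ico] at hx
      exact (hd x ⟨hx.1.le, hx.2⟩).differentiableAt.differentiableWithinAt
    · intro x hx
      rw [interior_Ico] at hx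
      rw [(hd x ⟨hx.1.le, hx.2⟩).deriv]
      have b1 : 1 + (p - 1) * x ≤ (1 + x) ^ (p - 1) :=
        one_add_mul_self_le_rpow_one_add (by linarith [hx.1]) (by linarith)
      have b2 : 1 + (p - 1) * (-x) ≤ (1 + -x) ^ (p - 1) :=
        one_add_mul_self_le_rpow_one_add (by linarith [hx.2]) (by linarith)
      rw [← sub_eq_add_neg] at b2
      nlinarith
  have := hmono ⟨le_rfl, one_pos⟩ ⟨h0, h1⟩ h0
  simp only at this
  norm_num at this
  linarith

theorem even_part {m : ℝ} (hm : 3 ≤ m) {τ : ℝ} (h0 : 0 ≤ τ) (h1 : τ < 1) :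
    1 + m * (m - 1) * τ ^ 2 / 2 ≤ ((1 + τ) ^ m + (1 - τ) ^ m) / 2 := by
  have hmono : MonotoneOn (fun τ : ℝ => ((1 + τ) ^ m + (1 - τ) ^ m) / 2 - m * (m - 1) * τ ^ 2 / 2)
      (Ico 0 1) := by
    have hd : ∀ x ∈ Ico (0 : ℝ) 1, HasDerivAt
        (fun τ : ℝ => ((1 + τ) ^ m + (1 - τ) ^ m) / 2 - m * (m - 1) * τ ^ 2 / 2)
        (m / 2 * ((1 + x) ^ (m - 1) - (1 - x) ^ (m - 1) - 2 * (m - 1) * x)) x := by
      intro x hx
      have e1 : HasDerivAt (fun τ : ℝ => (1 + τ) ^ m) (1 * m * (1 + x) ^ (m - 1)) x :=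
        ((hasDerivAt_id x).const_add 1).rpow_const (Or.inl (by simp only [id]; linarith [hx.1]))
      have e2 : HasDerivAt (fun τ : ℝ => (1 - τ) ^ m) (-1 * m * (1 - x) ^ (m - 1)) x :=
        ((hasDerivAt_id x).const_sub 1).rpow_const (Or.inl (by simp only [id]; linarith [hx.2]))
      have e3 : HasDerivAt (fun τ : ℝ => m * (m - 1) * τ ^ 2 / 2)
          (m * (m - 1) * (((2 : ℕ) : ℝ) * x ^ (2 - 1)) / 2) x :=
        ((hasDerivAt_pow 2 x).const_mul (m * (m - 1))).div_const 2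
      exact (((e1.add e2).div_const 2).sub e3).congr_deriv (by push_cast; ring)
    apply monotoneOn_of_deriv_nonneg (convex_Ico 0 1)
    · intro x hx; exact (hd x hx).continuousAt.continuousWithinAt
    · intro x hx
      rw [interior_Ico] at hx
      exact (hd x ⟨hx.1.le, hx.2⟩).differentiableAt.differentiableWithinAt
    · intro x hx
      rw [interior_Ico] at hx
      rw [(hd x ⟨hx.1.le, hx.2⟩).deriv]
      have := odd_part (p := m - 1) (by linarith) hx.1.le hx.2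
      apply mul_nonneg (by linarith)
      linarith
  have := hmono ⟨le_rfl, one_pos⟩ ⟨h0, h1⟩ h0
  simp only at this
  norm_num at this
  linarith

/-- the inequality of step (4) -/
theorem w_bound {u ζ : ℝ} (hu0 : 0 < u) (hu : u ≤ 2 / 3) (hζ0 : 0 ≤ ζ) (hζ : ζ < 1) :
    (1 - ζ) ^ 2 ≤ (1 - u * ζ) * (1 + ζ) ^ (u - 2) := by
  have h1 : (0 : ℝ) < 1 + ζ := by linarith
  have hb : 1 + u * (-(ζ / (1 + ζ))) ≥ (1 + -(ζ / (1 + ζ))) ^ u := by
    apply rpow_one_add_le_one_add_mul_self _ hu0.le (by linarith)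
    have : ζ / (1 + ζ) ≤ 1 := by rw [div_le_one h1]; linarith
    linarith
  have e1 : 1 + -(ζ / (1 + ζ)) = (1 + ζ)⁻¹ := by field_simp; ring
  rw [e1, Real.inv_rpow h1.le] at hb
  set X := (1 + ζ) ^ u with hX
  have hX0 : 0 < X := Real.rpow_pos_of_pos h1 _
  set y := ζ / (1 + ζ) with hy
  have hy0 : 0 ≤ y := by positivity
  have hy1 : y < 1 := by rw [hy, div_lt_one h1]; linarith
  have hX1 : 1 + u * y ≤ X := by
    have h3 : 1 ≤ X * (1 + u * (-y)) := by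
      have := mul_le_mul_of_nonneg_left hb hX0.le
      rw [mul_inv_cancel₀ hX0.ne'] at this
      exact this
    have h4 : 0 < 1 - u * y := by nlinarith
    have h5 : (1 + u * y) * (1 - u * y) ≤ X * (1 - u * y) := by nlinarith [mul_nonneg hu0.le hy0]
    exact le_of_mul_le_mul_right h5 h4
  have hy2 : y * (1 + ζ) = ζ := by rw [hy]; field_simp
  have e2 : (1 + ζ) ^ (u - 2) = X / (1 + ζ) ^ 2 := by
    rw [Real.rpow_sub h1, hX]
    norm_num
  rw [e2, ← mul_div_assoc, le_div_iff₀ (by positivity)]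
  have h6 : 0 ≤ 1 - u * ζ := by nlinarith
  have h7 : (1 - u * ζ) * (1 + u * y) ≤ (1 - u * ζ) * X := mul_le_mul_of_nonneg_left hX1 h6
  refine le_trans ?_ h7
  -- (1-ζ²)² ≤ (1-uζ)(1+uy)
  have key : (1 - ζ) ^ 2 * (1 + ζ) ^ 2 * (1 + ζ) ≤ (1 - u * ζ) * (1 + u * y) * (1 + ζ) := by
    have e3 : (1 - u * ζ) * (1 + u * y) * (1 + ζ) = (1 + ζ) - u * (1 + u) * ζ ^ 2 := by
      have : (1 - u * ζ) * (1 + u * y) * (1 + ζ) = (1 - u * ζ) * ((1 + ζ) + u * (y * (1 + ζ))) := by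
        ring
      rw [this, hy2]; ring
    rw [e3]
    have h8 : u * (1 + u) ≤ 10 / 9 := by nlinarith
    have h9 : u * (1 + u) * ζ ^ 2 ≤ 10 / 9 * ζ ^ 2 :=
      mul_le_mul_of_nonneg_right h8 (sq_nonneg ζ)
    have h10 : 0 ≤ ζ ^ 2 * (2 + 2 * ζ - ζ ^ 2 - ζ ^ 3 - 10 / 9) := by
      apply mul_nonneg (sq_nonneg _)
      have : ζ ^ 2 ≤ ζ := by nlinarith
      have : ζ ^ 3 ≤ ζ := by nlinarith [mul_nonneg hζ0 hζ0]
      linarith
    nlinarith
  exact le_of_mul_le_mul_right key h1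

/-- step (5) -/
theorem final_ineq {x δ s r ζ : ℝ} (hx0 : 0 < x) (hx6 : x ≤ 1 / 6) (hδ0 : 0 < δ)
    (hδ1 : δ ≤ 0.12247) (hδx : δ ≤ 0.73482 * x) (hr : 0 < r) (hr2 : r ^ 2 ≤ 6.76 * δ ^ 2)
    (hs : s = 1 - r ^ 2) (hζ0 : 0 ≤ ζ) (hζ1 : ζ < 1) :
    1 < √s * (1 + ζ) ^ x + r ^ 2 * (1 + δ) / (16 * δ) * (1 - ζ) ^ 2 := by
  have hδ2 : δ ^ 2 ≤ 0.015 := by nlinarith
  have hrr : 0 < r ^ 2 := by positivity
  have hs1 : 0.8986 ≤ s := by nlinarith
  have hs0 : 0 < s := by linarith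
  have hs2 : s < 1 := by linarith
  have hq : √s * √s = s := Real.mul_self_sqrt hs0.le
  have hq0 : 0 < √s := Real.sqrt_pos.mpr hs0
  -- lower bound for the power
  have h1 : 1 + x * (ζ - ζ ^ 2 / 2) ≤ (1 + ζ) ^ x := by
    have hpos : 0 < 1 + ζ := by linarith
    have hlog : ζ - ζ ^ 2 / 2 ≤ Real.log (1 + ζ) := by
      refine le_trans ?_ (Real.le_log_one_add_of_nonneg hζ0)
      rw [le_div_iff₀ (by linarith)]
      nlinarith [pow_nonneg hζ0 3]
    rw [Real.rpow_def_of_pos hpos]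
    have := Real.add_one_le_exp (Real.log (1 + ζ) * x)
    nlinarith
  have hκ : 0.57 * r ^ 2 ≤ r ^ 2 * (1 + δ) / (16 * δ) := by
    rw [le_div_iff₀ (by positivity)]
    nlinarith
  have hz0 : √s + r ^ 2 * (1 + δ) / (16 * δ) > 1 := by
    have h2 : 1 - 0.57 * r ^ 2 < √s := by
      have h3 : (1 - 0.57 * r ^ 2) ^ 2 < s := by
        have : r ^ 2 ≤ 0.1014 := by linarith
        rw [hs]
        nlinarith
      exact Real.lt_sqrt_of_sq_lt h3
    linarith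
  have hz1 : 1 < √s * (1 + x / 2) := by
    have h2 : 1 < s * (1 + x / 2) ^ 2 := by
      have h3 : δ ^ 2 ≤ 0.53997 * x ^ 2 := by nlinarith
      have h4 : 1 - 3.66 * x ^ 2 ≤ s := by nlinarith
      have h5 : (1 - 3.66 * x ^ 2) * (1 + x / 2) ^ 2 ≤ s * (1 + x / 2) ^ 2 :=
        mul_le_mul_of_nonneg_right h4 (sq_nonneg _)
      have h6 : 0 < x * (1 - 3.41 * x - 3.66 * x ^ 2 - 0.915 * x ^ 3) := by
        apply mul_pos hx0
        have : x ^ 2 ≤ 1 / 36 := by nlinarith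
        have : x ^ 3 ≤ 1 / 36 := by nlinarith
        linarith
      nlinarith
    by_contra h
    push Not at h
    have h7 : (√s * (1 + x / 2)) ^ 2 ≤ 1 := by
      have : 0 < √s * (1 + x / 2) := by positivity
      nlinarith
    have h8 : (√s * (1 + x / 2)) ^ 2 = s * (1 + x / 2) ^ 2 := by
      rw [mul_pow, sq (√s), hq]
    linarith
  set κ := r ^ 2 * (1 + δ) / (16 * δ) with hκdef
  set z := ζ - ζ ^ 2 / 2 with hz
  have hz0' : 0 ≤ z := by rw [hz]; nlinarith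
  have hz1' : 2 * z ≤ 1 := by rw [hz]; nlinarith [sq_nonneg (1 - ζ)]
  have h2z : (1 - ζ) ^ 2 = 1 - 2 * z := by rw [hz]; ring
  have h3 : √s * (1 + x * z) ≤ √s * (1 + ζ) ^ x := mul_le_mul_of_nonneg_left h1 hq0.le
  rw [h2z]
  have h4 : √s * (1 + x * z) + κ * (1 - 2 * z) =
      (1 - 2 * z) * (√s + κ) + 2 * z * (√s * (1 + x / 2)) := by ring
  have h5 : 1 < (1 - 2 * z) * (√s + κ) + 2 * z * (√s * (1 + x / 2)) := by
    rcases hz1'.eq_or_lt with h | h
    · have e1 : 1 - 2 * z = 0 := by linarith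
      rw [e1, h]; linarith
    · have e1 : (1 - 2 * z) * 1 < (1 - 2 * z) * (√s + κ) :=
        mul_lt_mul_of_pos_left hz0 (by linarith)
      have e2 : 2 * z * 1 ≤ 2 * z * (√s * (1 + x / 2)) :=
        mul_le_mul_of_nonneg_left hz1.le (by linarith)
      linarith
  linarith

/-- the parametrisation of `a, b` -/
theorem param {a b q : ℝ} (hq : 6 ≤ q) (hb : 0 < b) (hba : b ≤ a) :
    ∃ s τ Z : ℝ, s = a ^ 2 + b ^ 2 ∧ 0 ≤ τ ∧ τ < 1 ∧ (a ≠ b → 0 < τ) ∧
      a * b = s / 2 * (1 - τ ^ 2) ^ (1 / 2 : ℝ) ∧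
      1 + q * (q - 2) / 8 * τ ^ 2 ≤ Z ∧
      (a ^ q + b ^ q) ^ (1 / q) = cc q / √2 * (√s * Z ^ (1 / q)) := by
  have hq0 : 0 < q := by linarith
  have ha : 0 < a := lt_of_lt_of_le hb hba
  obtain ⟨s, hs⟩ : ∃ s, s = a ^ 2 + b ^ 2 := ⟨_, rfl⟩
  have hs0 : 0 < s := by rw [hs]; positivity
  obtain ⟨τ, hτ⟩ : ∃ τ, τ = (a ^ 2 - b ^ 2) / s := ⟨_, rfl⟩
  have hτ0 : 0 ≤ τ := by
    rw [hτ]
    apply div_nonneg _ hs0.le
    nlinarith
  have hτ1 : τ < 1 := by
    rw [hτ, div_lt_one hs0, hs]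
    nlinarith
  have hτs : τ * s = a ^ 2 - b ^ 2 := by rw [hτ]; field_simp
  have ha2 : a ^ 2 = s / 2 * (1 + τ) := by
    have : s / 2 * (1 + τ) = (s + τ * s) / 2 := by ring
    rw [this, hτs, hs]; ring
  have hb2 : b ^ 2 = s / 2 * (1 - τ) := by
    have : s / 2 * (1 - τ) = (s - τ * s) / 2 := by ring
    rw [this, hτs, hs]; ring
  obtain ⟨m, hm⟩ : ∃ m, m = q / 2 := ⟨_, rfl⟩
  have hm3 : 3 ≤ m := by rw [hm]; linarith
  obtain ⟨Z, hZ⟩ : ∃ Z, Z = ((1 + τ) ^ m + (1 - τ) ^ m) / 2 := ⟨_, rfl⟩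
  have hZ1 : 1 + m * (m - 1) * τ ^ 2 / 2 ≤ Z := by rw [hZ]; exact even_part hm3 hτ0 hτ1
  have hZ0 : 0 < Z := by
    rw [hZ]
    have e1 : 0 < (1 + τ) ^ m := Real.rpow_pos_of_pos (by linarith) _
    have e2 : 0 < (1 - τ) ^ m := Real.rpow_pos_of_pos (by linarith) _
    linarith
  have haq : a ^ q = (s / 2) ^ m * (1 + τ) ^ m := by
    rw [← Real.mul_rpow (by positivity) (by linarith), ← ha2, ← Real.rpow_natCast,
      ← Real.rpow_mul ha.le]
    congr 1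
    rw [hm]; push_cast; ring
  have hbq : b ^ q = (s / 2) ^ m * (1 - τ) ^ m := by
    rw [← Real.mul_rpow (by positivity) (by linarith), ← hb2, ← Real.rpow_natCast,
      ← Real.rpow_mul hb.le]
    congr 1
    rw [hm]; push_cast; ring
  have hP : a ^ q + b ^ q = 2 * ((s / 2) ^ m * Z) := by
    rw [haq, hbq, hZ]; ring
  refine ⟨s, τ, Z, hs, hτ0, hτ1, ?_, ?_, ?_, ?_⟩
  · intro hne
    rw [hτ]
    apply div_pos _ hs0
    have : b < a := lt_of_le_of_ne hba (Ne.symm hne)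
    nlinarith
  · have h1τ : 0 < 1 - τ ^ 2 := by nlinarith
    rw [← Real.sqrt_eq_rpow]
    have hR0 : 0 < √(1 - τ ^ 2) := Real.sqrt_pos.mpr h1τ
    have hRR : √(1 - τ ^ 2) * √(1 - τ ^ 2) = 1 - τ ^ 2 := Real.mul_self_sqrt h1τ.le
    have h1 : (a * b) ^ 2 = (s / 2 * √(1 - τ ^ 2)) ^ 2 := by
      have e1 : (a * b) ^ 2 = a ^ 2 * b ^ 2 := by ring
      have e2 : (s / 2 * √(1 - τ ^ 2)) ^ 2 = (s / 2) ^ 2 * (√(1 - τ ^ 2) * √(1 - τ ^ 2)) := by ring
      rw [e1, e2, ha2, hb2, hRR]; ring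
    have h2 : 0 ≤ a * b := by positivity
    have h3 : 0 ≤ s / 2 * √(1 - τ ^ 2) := by positivity
    exact (pow_left_inj₀ h2 h3 (by norm_num)).mp h1
  · have : q * (q - 2) / 8 * τ ^ 2 = m * (m - 1) * τ ^ 2 / 2 := by rw [hm]; ring
    rw [this]; exact hZ1
  · have hcx : (2 : ℝ) ^ (1 / q) = cc q := rfl
    rw [hP, Real.mul_rpow (by norm_num) (by positivity), hcx,
      Real.mul_rpow (by positivity) hZ0.le, ← Real.rpow_mul (by positivity)]
    have e1 : m * (1 / q) = 1 / 2 := by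
      rw [hm]; field_simp
    rw [e1, ← Real.sqrt_eq_rpow, Real.sqrt_div hs0.le]
    ring

theorem sq_le_aux {r δ : ℝ} (h0 : 0 ≤ r) (h : r ≤ 2.6 * δ) : r ^ 2 ≤ 6.76 * δ ^ 2 := by
  have := pow_le_pow_left₀ h0 h 2
  have e : (2.6 * δ) ^ 2 = 6.76 * δ ^ 2 := by ring
  linarith

theorem qq_aux {q : ℝ} (hq : 6 ≤ q) : 3 ≤ q * (q - 2) / 8 := by nlinarith

theorem zeta_contra {s c δ : ℝ} (hs0 : 0 < s) (hs1 : 1 - 6.76 * δ ^ 2 ≤ s) (hδ0 : 0 < δ)
    (hδ1 : δ ≤ 0.12247) (hcδ : c = 1 + δ) (h2 : √s * c ≤ 1) : False := by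
  have hss : √s * √s = s := Real.mul_self_sqrt hs0.le
  have hc0 : 0 < c := by linarith
  have h4 : (√s * c) ^ 2 ≤ 1 := pow_le_one₀ (by positivity) h2
  have h3 : s * c ^ 2 ≤ 1 := by
    calc s * c ^ 2 = (√s * √s) * c ^ 2 := by rw [hss]
      _ = (√s * c) ^ 2 := by ring
      _ ≤ 1 := h4
  have h4 : (1 - 6.76 * δ ^ 2) * c ^ 2 ≤ 1 :=
    le_trans (mul_le_mul_of_nonneg_right hs1 (sq_nonneg c)) h3
  rw [hcδ] at h4
  have hδ2 : δ ^ 2 ≤ 0.12247 ^ 2 := pow_le_pow_left₀ hδ0.le hδ1 2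
  have hδ3 : δ ^ 3 ≤ 0.12247 ^ 3 := pow_le_pow_left₀ hδ0.le hδ1 3
  have h5 : 0 < δ * (2 - 5.76 * δ - 13.52 * δ ^ 2 - 6.76 * δ ^ 3) := by
    apply mul_pos hδ0
    norm_num at hδ2 hδ3 ⊢
    linarith
  have h6 : (1 - 6.76 * δ ^ 2) * (1 + δ) ^ 2 =
      1 + δ * (2 - 5.76 * δ - 13.52 * δ ^ 2 - 6.76 * δ ^ 3) := by ring
  rw [h6] at h4
  linarith

theorem goalR1 : GR1 := by
  intro q a b r hq hb hba hr0 hsum hr hne
  have hq0 : 0 < q := by linarith
  have ha : 0 < a := lt_of_lt_of_le hb hba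
  obtain ⟨hc1, hc2, hc3⟩ := c_bounds hq
  obtain ⟨s, τ, Z, hs, hτ0, hτ1, hτne, hab, hZ1, hNn⟩ := param hq hb hba
  obtain ⟨x, hx⟩ : ∃ x, x = 1 / q := ⟨_, rfl⟩
  have hx0 : 0 < x := by rw [hx]; positivity
  have hx6 : x ≤ 1 / 6 := by
    rw [hx]; exact one_div_le_one_div_of_le (by norm_num) hq
  have hxq : x * q = 1 := by rw [hx]; field_simp
  have hhm0 : hm q a b = ((a ^ (-q) + b ^ (-q)) / 2) ^ (-x) := by rw [hx]; rfl
  have hcx : (2 : ℝ) ^ x = cc q := by rw [hx]; rfl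
  rw [← hx] at hc3 hNn ⊢
  obtain ⟨c, hc⟩ : ∃ c, c = cc q := ⟨_, rfl⟩
  rw [← hc] at hc1 hc2 hc3 hNn hr hcx ⊢
  obtain ⟨h, hh⟩ : ∃ h, h = hm q a b := ⟨_, rfl⟩
  rw [← hh] at hhm0 ⊢
  have hP0 : 0 < a ^ q + b ^ q := by positivity
  obtain ⟨N, hN⟩ : ∃ N, N = (a ^ q + b ^ q) ^ x := ⟨_, rfl⟩
  rw [← hN] at hNn ⊢
  have hN0 : 0 < N := by rw [hN]; exact Real.rpow_pos_of_pos hP0 _
  obtain ⟨δ, hδ⟩ : ∃ δ, δ = c - 1 := ⟨_, rfl⟩
  rw [← hδ] at hc3 hr ⊢
  have hcδ : c = 1 + δ := by rw [hδ]; ring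
  have hδ0 : 0 < δ := by linarith
  have hδ1 : δ ≤ 0.12247 := by linarith
  have hs0 : 0 < s := by rw [hs]; positivity
  have hsr : s = 1 - r ^ 2 := by linarith
  have hr2 : r ^ 2 ≤ 6.76 * δ ^ 2 := sq_le_aux hr0 hr
  have hqq : 3 ≤ q * (q - 2) / 8 := qq_aux hq
  have hZge : 1 ≤ Z := by
    have : 0 ≤ q * (q - 2) / 8 * τ ^ 2 := mul_nonneg (by linarith) (sq_nonneg τ)
    linarith
  have hZ0 : 0 < Z := by linarith
  have hs2 : (0 : ℝ) < √2 := by positivity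
  have hs22 : √2 * √2 = 2 := Real.mul_self_sqrt (by norm_num)
  obtain ⟨t, ht⟩ : ∃ t, t = c / √2 := ⟨_, rfl⟩
  rw [← ht] at hNn ⊢
  have ht0 : 0 < t := by rw [ht]; positivity
  obtain ⟨n, hn⟩ : ∃ n, n = √s * Z ^ x := ⟨_, rfl⟩
  rw [← hn] at hNn
  have hZx0 : 0 < Z ^ x := Real.rpow_pos_of_pos hZ0 _
  have hss0 : 0 < √s := Real.sqrt_pos.mpr hs0
  have hn0 : 0 < n := by rw [hn]; positivity
  by_cases hNt : t < N
  · left; exact hNt
  right
  push Not at hNt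
  have hn1 : n ≤ 1 := by
    rw [hNn] at hNt
    exact le_of_mul_le_mul_left (hNt.trans_eq (mul_one t).symm) ht0
  have hs1 : 1 - 6.76 * δ ^ 2 ≤ s := by linarith
  have hδ2 : δ ^ 2 ≤ 0.12247 ^ 2 := pow_le_pow_left₀ hδ0.le hδ1 2
  have hδ2' : δ ^ 2 ≤ 0.015 := by norm_num at hδ2 ⊢; linarith
  have hs9 : 0.8986 ≤ s := by
    norm_num at hδ2 ⊢
    linarith
  have hss : √s * √s = s := Real.mul_self_sqrt hs0.le
  obtain ⟨ζ, hζ⟩ : ∃ ζ, ζ = Z - 1 := ⟨_, rfl⟩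
  have hζ0 : 0 ≤ ζ := by linarith
  have hrpos : 0 < r := by
    by_contra hcon
    have hr' : r = 0 := by linarith
    have hs' : s = 1 := by rw [hsr, hr']; ring
    have hab' : a ≠ b := fun h' => hne ⟨hr', h'⟩
    have hτp : 0 < τ := hτne hab'
    have hZp : 1 < Z := by
      have : 0 < q * (q - 2) / 8 * τ ^ 2 := mul_pos (by linarith) (pow_pos hτp 2)
      linarith
    have : 1 < Z ^ x := Real.one_lt_rpow hZp hx0
    rw [hn, hs', Real.sqrt_one, one_mul] at hn1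
    linarith
  have hζ1 : ζ < 1 := by
    by_contra hcon
    push Not at hcon
    have hZ2 : 2 ≤ Z := by linarith
    have h1 : c ≤ Z ^ x := by
      rw [← hcx]; exact Real.rpow_le_rpow (by norm_num) hZ2 hx0.le
    have h2 : √s * c ≤ 1 := by
      calc √s * c ≤ √s * Z ^ x := mul_le_mul_of_nonneg_left h1 hss0.le
        _ ≤ 1 := by rw [← hn]; exact hn1
    exact zeta_contra hs0 hs1 hδ0 hδ1 hcδ h2
  have hτζ : q * (q - 2) / 8 * τ ^ 2 ≤ ζ := by linarith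
  have hτ3 : τ ^ 2 ≤ 1 / 3 := by
    have : 3 * τ ^ 2 ≤ q * (q - 2) / 8 * τ ^ 2 := mul_le_mul_of_nonneg_right hqq (sq_nonneg τ)
    linarith
  have h1τ : 0 < 1 - τ ^ 2 := by linarith
  have hab0 : 0 < a * b := by positivity
  -- h = c ab / N
  have hhN : h = c * (a * b) / N := by
    have hA : 0 < a ^ q := Real.rpow_pos_of_pos ha _
    have hB : 0 < b ^ q := Real.rpow_pos_of_pos hb _
    have e1 : (a ^ (-q) + b ^ (-q)) / 2 = (2 * (a ^ q * b ^ q) / (a ^ q + b ^ q))⁻¹ := by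
      rw [Real.rpow_neg ha.le, Real.rpow_neg hb.le]
      field_simp
      ring
    rw [hhm0, e1, Real.rpow_neg (by positivity), Real.inv_rpow (by positivity), inv_inv,
      Real.div_rpow (by positivity) hP0.le, ← hN, Real.mul_rpow (by norm_num) (by positivity), hcx,
      Real.mul_rpow hA.le hB.le, ← Real.rpow_mul ha.le, ← Real.rpow_mul hb.le, mul_comm q x, hxq,
      Real.rpow_one, Real.rpow_one]
  have hh0 : 0 < h := by rw [hhN]; positivity
  have hhmul : h * N = c * (a * b) := by rw [hhN]; field_simp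
  constructor
  · -- validity
    have hR : 0.8164 ≤ (1 - τ ^ 2) ^ (1 / 2 : ℝ) := by
      rw [← Real.sqrt_eq_rpow]
      apply Real.le_sqrt_of_sq_le
      norm_num
      linarith
    have h1 : s / 2 * 0.8164 ≤ a * b := by
      rw [hab]; exact mul_le_mul_of_nonneg_left hR (by linarith)
    have h2 : c * (a * b) ≤ h * t := by
      rw [← hhmul]; exact mul_le_mul_of_nonneg_left hNt hh0.le
    have h3 : c * (a * b) * √2 ≤ h * c := by
      have : h * t * √2 = h * c := by rw [ht]; field_simp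
      rw [← this]; exact mul_le_mul_of_nonneg_right h2 hs2.le
    have h4 : (a * b) * √2 ≤ h := by
      have : c * ((a * b) * √2) ≤ c * h := by linarith
      exact le_of_mul_le_mul_left this (by linarith)
    -- t r ≤ 4 h δ
    have h5 : t * r ≤ t * (2.6 * δ) := mul_le_mul_of_nonneg_left hr ht0.le
    have h6 : t * √2 = c := by rw [ht]; field_simp
    have h7 : t * (2.6 * δ) ≤ 4 * h * δ := by
      have h8 : t * 2.6 ≤ 4 * h := by
        have h9 : t * 2.6 * √2 ≤ 4 * h * √2 := by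
          have h10 : (a * b) * √2 * √2 ≤ h * √2 := mul_le_mul_of_nonneg_right h4 hs2.le
          rw [mul_assoc, hs22] at h10
          have : t * 2.6 * √2 = c * 2.6 := by rw [← h6]; ring
          rw [this]
          have e5 : 4 * h * √2 = 4 * (h * √2) := by ring
          rw [e5]
          linarith
        exact le_of_mul_le_mul_right h9 hs2
      calc t * (2.6 * δ) = t * 2.6 * δ := by ring
        _ ≤ 4 * h * δ := mul_le_mul_of_nonneg_right h8 hδ0.le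
    linarith
  · -- main inequality
    obtain ⟨W, hW⟩ : ∃ W, W = h ^ 2 / (a * b) := ⟨_, rfl⟩
    rw [← hW]
    have hW0 : 0 < W := by rw [hW]; positivity
    obtain ⟨κ, hκ⟩ : ∃ κ, κ = r ^ 2 * (1 + δ) / (16 * δ) := ⟨_, rfl⟩
    have hκ0 : 0 < κ := by rw [hκ]; positivity
    -- W = (1-τ²)^(1/2) Z^(-2x)
    have hWN : W * N ^ 2 = c ^ 2 * (a * b) := by
      rw [hW]
      have : h ^ 2 / (a * b) * N ^ 2 = (h * N) ^ 2 / (a * b) := by ring
      rw [this, hhmul]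
      field_simp
    have hN2 : N ^ 2 = c ^ 2 / 2 * (s * (Z ^ x) ^ 2) := by
      rw [hNn, hn, ht]
      have : (c / √2 * (√s * Z ^ x)) ^ 2 = c ^ 2 / (√2 * √2) * ((√s * √s) * (Z ^ x) ^ 2) := by
        field_simp
      rw [this, hs22, hss]
    have hWZ : W * (Z ^ x) ^ 2 = (1 - τ ^ 2) ^ (1 / 2 : ℝ) := by
      rw [hN2, hab] at hWN
      have hpos : 0 < c ^ 2 / 2 * s := by positivity
      have : c ^ 2 / 2 * s * (W * (Z ^ x) ^ 2) = c ^ 2 / 2 * s * (1 - τ ^ 2) ^ (1 / 2 : ℝ) := by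
        linarith
      exact mul_left_cancel₀ hpos.ne' this
    have hWe : W = (1 - τ ^ 2) ^ (1 / 2 : ℝ) * Z ^ (-(2 * x)) := by
      have e1 : (Z ^ x) ^ 2 = Z ^ (2 * x) := by
        rw [← Real.rpow_natCast, ← Real.rpow_mul hZ0.le]
        congr 1
        push_cast; ring
      rw [e1] at hWZ
      rw [← hWZ, Real.rpow_neg hZ0.le]
      have : Z ^ (2 * x) ≠ 0 := (Real.rpow_pos_of_pos hZ0 _).ne'
      field_simp
    have hWp : W ^ (q - 2) = (1 - τ ^ 2) ^ ((q - 2) / 2) * (1 + ζ) ^ (4 * x - 2) := by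
      rw [hWe, Real.mul_rpow (by positivity) (by positivity), ← Real.rpow_mul h1τ.le,
        ← Real.rpow_mul hZ0.le]
      have e2 : 1 + ζ = Z := by rw [hζ]; ring
      rw [e2]
      congr 2
      · ring
      · linear_combination (-2 : ℝ) * hxq
    have hWl : (1 - ζ) ^ 2 ≤ W ^ (q - 2) := by
      rw [hWp]
      refine (w_bound (u := 4 * x) (by linarith) (by linarith) hζ0 hζ1).trans ?_
      apply mul_le_mul_of_nonneg_right _ (Real.rpow_pos_of_pos (by linarith) _).le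
      have h1 : 1 + (q - 2) / 2 * (-τ ^ 2) ≤ (1 + -τ ^ 2) ^ ((q - 2) / 2) :=
        one_add_mul_self_le_rpow_one_add (by linarith) (by linarith)
      rw [← sub_eq_add_neg] at h1
      refine le_trans ?_ h1
      -- (q-2)/2 τ² ≤ 4 x ζ
      have h2 : (q - 2) / 2 * τ ^ 2 = 4 * x * (q * (q - 2) / 8 * τ ^ 2) := by
        linear_combination (-(q - 2) / 2 * τ ^ 2) * hxq
      have h3 : 4 * x * (q * (q - 2) / 8 * τ ^ 2) ≤ 4 * x * ζ :=
        mul_le_mul_of_nonneg_left hτζ (by linarith)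
      linarith
    have hfin := final_ineq hx0 hx6 hδ0 hδ1 hc3 hrpos hr2 hsr hζ0 hζ1
    have e2 : 1 + ζ = Z := by rw [hζ]; ring
    rw [e2, ← hn, ← hκ] at hfin
    have h1 : 1 < n + κ * W ^ (q - 2) :=
      hfin.trans_le (by linarith [mul_le_mul_of_nonneg_left hWl hκ0.le])
    -- the last term
    have hW1 : W ^ (q - 1) = W ^ (q - 2) * W := by
      rw [← Real.rpow_add_one hW0.ne']
      congr 1; ring
    have e3 : 1 / 2 * (W ^ (q - 1) * ((t * r) ^ 2 / (8 * h * δ))) =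
        t * (κ * W ^ (q - 2) / n) := by
      rw [hW1]
      -- W/h = c/N
      have hWh : W * N = c * h := by
        have : W * N * N = c * h * N := by
          calc W * N * N = W * N ^ 2 := by ring
            _ = c ^ 2 * (a * b) := hWN
            _ = c * (c * (a * b)) := by ring
            _ = c * (h * N) := by rw [hhmul]
            _ = c * h * N := by ring
        exact mul_right_cancel₀ hN0.ne' this
      have hWn : W = c * h / (t * n) := by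
        rw [← hNn, eq_div_iff hN0.ne']; exact hWh
      rw [hκ, ← hcδ]
      generalize W ^ (q - 2) = Q
      rw [hWn]
      field_simp
      ring
    rw [e3, hNn]
    have h2 : κ * W ^ (q - 2) ≤ κ * W ^ (q - 2) / n := by
      rw [le_div_iff₀ hn0]
      have : 0 < κ * W ^ (q - 2) := mul_pos hκ0 (Real.rpow_pos_of_pos hW0 _)
      exact mul_le_of_le_one_right this.le hn1
    have h3 : 1 < n + κ * W ^ (q - 2) / n := by linarith
    calc t = t * 1 := (mul_one t).symm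
      _ < t * (n + κ * W ^ (q - 2) / n) := mul_lt_mul_of_pos_left h3 ht0
      _ = t * n + t * (κ * W ^ (q - 2) / n) := by ring

end Pool.Agent.Helper77.NO
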